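import Mathlib

/-!
Project SC15: the residue symbols `(-15/p)` and `(5/p)`.
-/

namespace SC15

open NumberTheorySymbols jacobiSym

theorem jac_neg15 {p : ℕ} (hp : Odd p) : J(-15 | p) = J(p | 15) := by
  rw [jacobiSym.neg 15 hp]
  have hp4 : p % 4 = 1 ∨ p % 4 = 3 := by
    obtain ⟨m, hm⟩ := hp
    omega
  rcases hp4 with h | h
  · have h1 : J((15 : ℕ) | p) = J(p | 15) :=
      (quadratic_reciprocity_one_mod_four' (by decide) h)
    have h2 : ZMod.χ₄ p = 1 := ZMod.χ₄_nat_one_mod_four h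
    rw [h2, one_mul]
    exact_mod_cast h1
  · have h1 : J((15 : ℕ) | p) = - J(p | 15) :=
      (quadratic_reciprocity_three_mod_four (by decide) h)
    have h2 : ZMod.χ₄ p = -1 := ZMod.χ₄_nat_three_mod_four h
    rw [h2]
    have h3 : J(15 | p) = - J(p | 15) := by exact_mod_cast h1
    rw [h3]; ring

theorem jac_five {p : ℕ} (hp : Odd p) : J(5 | p) = J(p | 5) := by
  have h1 : J((5 : ℕ) | p) = J(p | 5) := quadratic_reciprocity_one_mod_four (by decide) hp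
  exact_mod_cast h1

theorem jac_mod {p n : ℕ} : J(p | n) = J((p % n : ℕ) | n) := by
  rw [mod_left]
  have : ((p : ℤ) % (n : ℕ)) = ((p % n : ℕ) : ℤ) := by push_cast; rfl
  rw [this]

theorem jac_split {p : ℕ} (hp : Odd p) (h : p % 15 = 1 ∨ p % 15 = 2 ∨ p % 15 = 4 ∨ p % 15 = 8) :
    J(-15 | p) = 1 := by
  rw [jac_neg15 hp, jac_mod]
  rcases h with h | h | h | h <;> rw [h] <;> norm_num

theorem jac_inert {p : ℕ} (hp : Odd p)
    (h : p % 15 = 7 ∨ p % 15 = 11 ∨ p % 15 = 13 ∨ p % 15 = 14) : J(-15 | p) = -1 := by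
  rw [jac_neg15 hp, jac_mod]
  rcases h with h | h | h | h <;> rw [h] <;> norm_num

theorem jac_five_one {p : ℕ} (hp : Odd p) (h : p % 5 = 1 ∨ p % 5 = 4) : J(5 | p) = 1 := by
  rw [jac_five hp, jac_mod]
  rcases h with h | h <;> rw [h] <;> norm_num

theorem jac_five_neg {p : ℕ} (hp : Odd p) (h : p % 5 = 2 ∨ p % 5 = 3) : J(5 | p) = -1 := by
  rw [jac_five hp, jac_mod]
  rcases h with h | h <;> rw [h] <;> norm_num

/-- inert case: `p` divides `a` -/
theorem inert_dvd {p : ℕ} (hp : p.Prime) (hp2 : p ≠ 2)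
    (h : p % 15 = 7 ∨ p % 15 = 11 ∨ p % 15 = 13 ∨ p % 15 = 14) {a z : ℤ}
    (ha : 4 * (p : ℤ) ^ 2 - a ^ 2 = 15 * z ^ 2) : (p : ℤ) ∣ a := by
  haveI : Fact p.Prime := ⟨hp⟩
  have hodd : Odd p := hp.odd_of_ne_two hp2
  exact (prime_dvd_of_eq_neg_one (jac_inert hodd h)
    (x := a) (y := z) ⟨4 * p, by linear_combination -ha⟩).1

theorem pow_half {p : ℕ} [Fact p.Prime] (a : ℤ) :
    ((J(a | p) : ℤ) : ZMod p) = (a : ZMod p) ^ (p / 2) := by
  rw [← legendreSym.to_jacobiSym, legendreSym.eq_pow]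

end SC15
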