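import Mathlib

/-!
Project SC15: the arithmetic of `a^2 + 15 z^2 = 4 p^2`.
-/

namespace SC15

/-- two representations of `4 p^2` by `a^2 + 15 z^2` -/
theorem nt_core {p : ℕ} (hp : p.Prime) (hp2 : 5 < p) {a z A Z : ℤ}
    (h : a ^ 2 + 15 * z ^ 2 = 4 * (p : ℤ) ^ 2) (H : A ^ 2 + 15 * Z ^ 2 = 4 * (p : ℤ) ^ 2)
    (hA : Even A) (hZ : Even Z) (hpa : ¬ (p : ℤ) ∣ a) (hpZ : ¬ (p : ℤ) ∣ Z) :
    a = A ∨ a = - A := by
  have hpp : Prime (p : ℤ) := Nat.prime_iff_prime_int.mp hp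
  have hodd : ¬ Even ((p : ℤ) ^ 2) := by
    rw [Int.even_pow' two_ne_zero]
    intro h
    have : Even p := by exact_mod_cast h
    have := (hp.even_iff).mp this
    omega
  have key : (a * Z - A * z) * (a * Z + A * z) = (p : ℤ) ^ 2 * (4 * (Z ^ 2 - z ^ 2)) := by
    linear_combination Z ^ 2 * h - z ^ 2 * H
  -- one of the factors is divisible by `p^2`
  have main : ∀ e : ℤ, e ^ 2 = 1 → (p : ℤ) ^ 2 ∣ a * Z - e * A * z → a = A ∨ a = - A := by
    intro e he hd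
    obtain ⟨m, hm⟩ := hd
    have id1 : 15 * (a * Z - e * A * z) ^ 2 + (a * A + 15 * e * z * Z) ^ 2 = 16 * (p : ℤ) ^ 4 := by
      have : 15 * (a * Z - e * A * z) ^ 2 + (a * A + 15 * e * z * Z) ^ 2
          = (a ^ 2 + 15 * z ^ 2) * (A ^ 2 + 15 * Z ^ 2) := by
        linear_combination (15 * A ^ 2 * z ^ 2 + 225 * z ^ 2 * Z ^ 2) * he
      rw [this, h, H]; ring
    have hd2 : (p : ℤ) ^ 2 ∣ a * A + 15 * e * z * Z := by
      have : ((p : ℤ) ^ 2) ^ 2 ∣ (a * A + 15 * e * z * Z) ^ 2 := by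
        refine ⟨16 - 15 * m ^ 2, ?_⟩
        rw [hm] at id1
        linear_combination id1
      exact (Int.pow_dvd_pow_iff two_ne_zero).mp this
    obtain ⟨n, hn⟩ := hd2
    have hp0 : (p : ℤ) ≠ 0 := by exact_mod_cast hp.ne_zero
    have e16 : 15 * m ^ 2 + n ^ 2 = 16 := by
      rw [hm, hn] at id1
      have : (p : ℤ) ^ 4 * (15 * m ^ 2 + n ^ 2) = (p : ℤ) ^ 4 * 16 := by linear_combination id1
      exact mul_left_cancel₀ (pow_ne_zero 4 hp0) this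
    have hm0 : m = 0 := by
      by_contra hm0
      have h1 : 1 ≤ m ^ 2 := by
        have := pow_pos (abs_pos.mpr hm0) 2
        rw [sq_abs] at this
        omega
      have hn1 : n ^ 2 ≤ 1 := by nlinarith
      have hm1 : m ^ 2 = 1 := by nlinarith [sq_nonneg n]
      have hmodd : ¬ Even m := by
        intro hme
        have : Even (m ^ 2) := hme.pow_of_ne_zero two_ne_zero
        rw [hm1] at this
        exact absurd this (by decide)
      have hev : Even ((p : ℤ) ^ 2 * m) := by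
        rw [← hm]
        exact (hZ.mul_left a).sub ((hA.mul_left e).mul_right z)
      rcases Int.even_mul.mp hev with h' | h'
      · exact hodd h'
      · exact hmodd h'
    rw [hm0, mul_zero] at hm
    -- `a Z = e A z`
    have hn2 : n ^ 2 = 16 := by rw [hm0] at e16; linarith
    have hsq : a ^ 2 = A ^ 2 := by
      have h3 : a * Z = e * A * z := by linear_combination hm
      have h4 : a ^ 2 * Z ^ 2 = A ^ 2 * z ^ 2 := by
        have : (a * Z) ^ 2 = (e * A * z) ^ 2 := by rw [h3]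
        linear_combination this + A ^ 2 * z ^ 2 * he
      have h5 : 4 * (p : ℤ) ^ 2 * a ^ 2 = 4 * (p : ℤ) ^ 2 * A ^ 2 := by
        linear_combination (-a ^ 2) * H + A ^ 2 * h + 15 * h4
      exact mul_left_cancel₀ (by positivity) h5
    exact sq_eq_sq_iff_eq_or_eq_neg.mp hsq
  have hnot : ¬ ((p : ℤ) ∣ a * Z - A * z ∧ (p : ℤ) ∣ a * Z + A * z) := by
    rintro ⟨h1, h2⟩
    have h3 : (p : ℤ) ∣ 2 * (a * Z) := by
      have := dvd_add h1 h2
      ring_nf at this ⊢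
      exact this
    rcases hpp.dvd_or_dvd h3 with h4 | h4
    · have := Int.le_of_dvd (by norm_num) h4
      omega
    · rcases hpp.dvd_or_dvd h4 with h5 | h5
      · exact hpa h5
      · exact hpZ h5
  have hdvd : (p : ℤ) ^ 2 ∣ (a * Z - A * z) * (a * Z + A * z) := ⟨_, key⟩
  by_cases h1 : (p : ℤ) ∣ a * Z - A * z
  · have h2 : ¬ (p : ℤ) ∣ a * Z + A * z := fun h2 => hnot ⟨h1, h2⟩
    have hc : IsCoprime ((p : ℤ) ^ 2) (a * Z + A * z) :=
      (hpp.coprime_iff_not_dvd.mpr h2).pow_left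
    refine main 1 (by norm_num) ?_
    have := hc.dvd_of_dvd_mul_right hdvd
    simpa using this
  · have hc : IsCoprime ((p : ℤ) ^ 2) (a * Z - A * z) :=
      (hpp.coprime_iff_not_dvd.mpr h1).pow_left
    refine main (-1) (by norm_num) ?_
    have := hc.dvd_of_dvd_mul_left hdvd
    have e : a * Z - (-1) * A * z = a * Z + A * z := by ring
    rw [e]; exact this

theorem not_dvd_of_sq {p : ℕ} (hp : p.Prime) {x : ℤ} (hx : x ≠ 0) (hlt : x ^ 2 < (p : ℤ) ^ 2) :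
    ¬ (p : ℤ) ∣ x := by
  rintro ⟨m, rfl⟩
  have hm : m ≠ 0 := by rintro rfl; simp at hx
  have h1 : 1 ≤ m ^ 2 := by
    have := pow_pos (abs_pos.mpr hm) 2
    rw [sq_abs] at this
    omega
  nlinarith [sq_nonneg (p : ℤ)]

theorem nt1 {p : ℕ} (hp : p.Prime) (hp5 : 5 < p) {a z x y : ℤ}
    (h : 4 * (p : ℤ) ^ 2 - a ^ 2 = 15 * z ^ 2) (h3 : 3 ∣ (p : ℤ) ^ 2 + 1 - a)
    (hpa : ¬ (p : ℤ) ∣ a) (hxy : (p : ℤ) = x ^ 2 + 15 * y ^ 2) : a = 4 * x ^ 2 - 2 * p := by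
  have hpp : Prime (p : ℤ) := Nat.prime_iff_prime_int.mp hp
  have hp5' : (5 : ℤ) < p := by exact_mod_cast hp5
  have hlt : (p : ℤ) < (p : ℤ) ^ 2 := by nlinarith
  have hy0 : y ≠ 0 := by
    rintro rfl
    have : (p : ℤ) = x ^ 2 := by linarith
    exact hpp.irreducible.not_isSquare ⟨x, by rw [this]; ring⟩
  have hx0 : x ≠ 0 := by
    rintro rfl
    have h15 : (p : ℤ) ∣ 15 * (y * y) := ⟨1, by linarith⟩
    have hdy : ¬ (p : ℤ) ∣ y := not_dvd_of_sq hp hy0 (by nlinarith [sq_nonneg y])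
    rcases hpp.dvd_or_dvd h15 with h' | h'
    · have h3' : (3 : ℤ) ∣ p := ⟨5 * y ^ 2, by rw [hxy]; ring⟩
      have : 3 ∣ p := by exact_mod_cast h3'
      rcases (Nat.dvd_prime hp).mp this with h'' | h'' <;> omega
    · rcases hpp.dvd_or_dvd h' with h'' | h'' <;> exact hdy h''
  have hdx : ¬ (p : ℤ) ∣ x := not_dvd_of_sq hp hx0 (by nlinarith [sq_nonneg y])
  have hdy : ¬ (p : ℤ) ∣ y := not_dvd_of_sq hp hy0 (by nlinarith [sq_nonneg x, sq_nonneg y])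
  have hZ : ¬ (p : ℤ) ∣ 4 * x * y := by
    intro hd
    rcases hpp.dvd_or_dvd hd with h' | h'
    · rcases hpp.dvd_or_dvd h' with h'' | h''
      · have := Int.le_of_dvd (by norm_num) h''
        omega
      · exact hdx h''
    · exact hdy h'
  have hA : (4 * x ^ 2 - 2 * (p : ℤ)) ^ 2 + 15 * (4 * x * y) ^ 2 = 4 * (p : ℤ) ^ 2 := by
    rw [hxy]; ring
  have hr := nt_core hp hp5 (a := a) (z := z) (by linarith) hA
    ⟨2 * x ^ 2 - p, by ring⟩ ⟨2 * x * y, by ring⟩ hpa hZ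
  rcases hr with hr | hr
  · exact hr
  · exfalso
    have h3p : ¬ (3 : ℤ) ∣ p := by
      intro h'
      have : 3 ∣ p := by exact_mod_cast h'
      rcases (Nat.dvd_prime hp).mp this with h'' | h'' <;> omega
    have hx3 : x % 3 = 0 ∨ x % 3 = 1 ∨ x % 3 = 2 := by omega
    rw [hr, hxy] at h3
    rw [hxy] at h3p
    have key : (3 : ℤ) ∣ (x ^ 2) ^ 2 + 1 + 2 * x ^ 2 := by
      obtain ⟨c, hc⟩ := h3
      exact ⟨c - 10 * x ^ 2 * y ^ 2 - 75 * y ^ 4 + 10 * y ^ 2, by linear_combination hc⟩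
    rcases hx3 with h' | h' | h'
    · apply h3p
      obtain ⟨m, hm⟩ : (3 : ℤ) ∣ x := Int.dvd_of_emod_eq_zero h'
      exact ⟨3 * m ^ 2 + 5 * y ^ 2, by rw [hm]; ring⟩
    · obtain ⟨m, hm⟩ : ∃ m, x = 3 * m + 1 := ⟨x / 3, by omega⟩
      rw [hm] at key
      obtain ⟨c, hc⟩ := key
      have : (3 : ℤ) ∣ 4 := ⟨c - (27 * m ^ 4 + 36 * m ^ 3 + 24 * m ^ 2 + 8 * m), by
        linear_combination hc⟩
      norm_num at this
    · obtain ⟨m, hm⟩ : ∃ m, x = 3 * m + 2 := ⟨x / 3, by omega⟩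
      rw [hm] at key
      obtain ⟨c, hc⟩ := key
      have : (3 : ℤ) ∣ 25 := ⟨c - (27 * m ^ 4 + 72 * m ^ 3 + 78 * m ^ 2 + 40 * m), by
        linear_combination hc⟩
      norm_num at this

theorem nt2 {p : ℕ} (hp : p.Prime) (hp5 : 5 < p) {a z x y : ℤ}
    (h : 4 * (p : ℤ) ^ 2 - a ^ 2 = 15 * z ^ 2) (h3 : 3 ∣ (p : ℤ) ^ 2 + 1 - a)
    (hpa : ¬ (p : ℤ) ∣ a) (hxy : (p : ℤ) = 3 * x ^ 2 + 5 * y ^ 2) : a = 12 * x ^ 2 - 2 * p := by
  have hpp : Prime (p : ℤ) := Nat.prime_iff_prime_int.mp hp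
  have hp5' : (5 : ℤ) < p := by exact_mod_cast hp5
  have hlt : (p : ℤ) < (p : ℤ) ^ 2 := by nlinarith
  have hn3 : ¬ (3 : ℤ) ∣ p := by
    intro h'
    have : 3 ∣ p := by exact_mod_cast h'
    rcases (Nat.dvd_prime hp).mp this with h'' | h'' <;> omega
  have hn5 : ¬ (5 : ℤ) ∣ p := by
    intro h'
    have : 5 ∣ p := by exact_mod_cast h'
    rcases (Nat.dvd_prime hp).mp this with h'' | h'' <;> omega
  have hy0 : y ≠ 0 := by
    rintro rfl
    exact hn3 ⟨x ^ 2, by linarith⟩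
  have hx0 : x ≠ 0 := by
    rintro rfl
    exact hn5 ⟨y ^ 2, by linarith⟩
  have hdx : ¬ (p : ℤ) ∣ x := not_dvd_of_sq hp hx0 (by nlinarith [sq_nonneg y, sq_nonneg x])
  have hdy : ¬ (p : ℤ) ∣ y := not_dvd_of_sq hp hy0 (by nlinarith [sq_nonneg x, sq_nonneg y])
  have hZ : ¬ (p : ℤ) ∣ 4 * x * y := by
    intro hd
    rcases hpp.dvd_or_dvd hd with h' | h'
    · rcases hpp.dvd_or_dvd h' with h'' | h''
      · have := Int.le_of_dvd (by norm_num) h''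
        omega
      · exact hdx h''
    · exact hdy h'
  have hA : (12 * x ^ 2 - 2 * (p : ℤ)) ^ 2 + 15 * (4 * x * y) ^ 2 = 4 * (p : ℤ) ^ 2 := by
    rw [hxy]; ring
  have hr := nt_core hp hp5 (a := a) (z := z) (by linarith) hA
    ⟨6 * x ^ 2 - p, by ring⟩ ⟨2 * x * y, by ring⟩ hpa hZ
  rcases hr with hr | hr
  · exact hr
  · exfalso
    have hy3 : y % 3 = 0 ∨ y % 3 = 1 ∨ y % 3 = 2 := by omega
    rw [hr, hxy] at h3
    rw [hxy] at hn3
    have key : (3 : ℤ) ∣ (y ^ 2) ^ 2 + 1 + 2 * y ^ 2 := by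
      obtain ⟨c, hc⟩ := h3
      exact ⟨c - 3 * x ^ 4 - 10 * x ^ 2 * y ^ 2 - 8 * y ^ 4 - 2 * x ^ 2 + 4 * y ^ 2, by
        linear_combination hc⟩
    rcases hy3 with h' | h' | h'
    · apply hn3
      obtain ⟨m, hm⟩ : (3 : ℤ) ∣ y := Int.dvd_of_emod_eq_zero h'
      exact ⟨x ^ 2 + 15 * m ^ 2, by rw [hm]; ring⟩
    · obtain ⟨m, hm⟩ : ∃ m, y = 3 * m + 1 := ⟨y / 3, by omega⟩
      rw [hm] at key
      obtain ⟨c, hc⟩ := key
      have : (3 : ℤ) ∣ 4 := ⟨c - (27 * m ^ 4 + 36 * m ^ 3 + 24 * m ^ 2 + 8 * m), by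
        linear_combination hc⟩
      norm_num at this
    · obtain ⟨m, hm⟩ : ∃ m, y = 3 * m + 2 := ⟨y / 3, by omega⟩
      rw [hm] at key
      obtain ⟨c, hc⟩ := key
      have : (3 : ℤ) ∣ 25 := ⟨c - (27 * m ^ 4 + 72 * m ^ 3 + 78 * m ^ 2 + 40 * m), by
        linear_combination hc⟩
      norm_num at this

end SC15
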