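import Mathlib
import Pool.Agent.SC15.Defs

/-!
Project SC15: the rational number `S(p)`, the congruence modulo `p^2` of rational numbers, and its
reformulation with integers.
-/

namespace SC15

open Finset

/-- `S(p) = ∑_{k<p} C(2k,k)^2 C(3k,k) / 15^(3k)` -/
def S (p : ℕ) : ℚ :=
  ∑ k ∈ range p, (((2 * k).choose k : ℚ) ^ 2 * ((3 * k).choose k : ℚ)) / 15 ^ (3 * k)

/-- `a ≡ b (mod p^2)`: the rational number `(a - b) / p^2` has denominator prime to `p` -/
def CongSq (p : ℕ) (a b : ℚ) : Prop := Nat.Coprime ((a - b) / (p : ℚ) ^ 2).den p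

/-- the numerator of `S(p)` over the common denominator `3375^(p-1)` -/
def SN (p : ℕ) : ℤ :=
  ∑ k ∈ range p, ((Nat.centralBinom k * u k : ℕ) : ℤ) * 3375 ^ (p - 1 - k)

theorem S_eq (p : ℕ) (hp : 0 < p) : S p = (SN p : ℚ) / 3375 ^ (p - 1) := by
  unfold S SN
  push_cast
  rw [Finset.sum_div]
  refine Finset.sum_congr rfl fun k hk => ?_
  have hk' : k ≤ p - 1 := by
    have := Finset.mem_range.mp hk
    omega
  have e : (3375 : ℚ) ^ (p - 1) = 3375 ^ (p - 1 - k) * 3375 ^ k := by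
    rw [← pow_add]; congr 1; omega
  have e2 : (15 : ℚ) ^ (3 * k) = 3375 ^ k := by
    rw [pow_mul]; norm_num
  rw [e, e2, Nat.centralBinom, u, Nat.centralBinom]
  push_cast
  field_simp

theorem congSq_of_dvd {p : ℕ} (hp : p.Prime) (hp5 : 5 < p) (t : ℤ)
    (h : (p : ℤ) ^ 2 ∣ SN p - t * 3375 ^ (p - 1)) : CongSq p (S p) t := by
  obtain ⟨M, hM⟩ := h
  have hp0 : (p : ℚ) ≠ 0 := by exact_mod_cast hp.ne_zero
  have e : (S p - t) / (p : ℚ) ^ 2 = (M : ℚ) / ((3375 ^ (p - 1) : ℤ) : ℚ) := by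
    rw [S_eq p hp.pos]
    have hM' : (SN p : ℚ) - t * 3375 ^ (p - 1) = (p : ℚ) ^ 2 * M := by exact_mod_cast hM
    push_cast
    field_simp
    linear_combination hM'
  unfold CongSq
  rw [e]
  have hd : (((M : ℚ) / ((3375 ^ (p - 1) : ℤ) : ℚ)).den : ℤ) ∣ 3375 ^ (p - 1) := by
    have := Rat.den_dvd M (3375 ^ (p - 1))
    rwa [Rat.divInt_eq_div] at this
  have hcop : Nat.Coprime (3375 ^ (p - 1)) p := by
    apply Nat.Coprime.pow_left
    rw [Nat.coprime_comm, Nat.Prime.coprime_iff_not_dvd hp]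
    intro hd
    have h3375 : 3375 = 3 ^ 3 * 5 ^ 3 := by norm_num
    rw [h3375] at hd
    rcases (Nat.Prime.dvd_mul hp).mp hd with h' | h'
    · have := Nat.le_of_dvd (by norm_num) (hp.dvd_of_dvd_pow h'); omega
    · have := Nat.le_of_dvd (by norm_num) (hp.dvd_of_dvd_pow h'); omega
  exact Nat.Coprime.coprime_dvd_left (by exact_mod_cast hd) hcop

theorem seven : CongSq 7 (S 7) 0 := by
  have := congSq_of_dvd (p := 7) (by norm_num) (by norm_num) 0 (by
    unfold SN u
    simp only [Finset.sum_range_succ, Finset.sum_range_zero, Nat.centralBinom]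
    decide +kernel)
  simpa using this

end SC15
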