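import Mathlib
import Pool.Agent.SC15.Defs
import Pool.Agent.SC15.F.NT
import Pool.Agent.SC15.F.Leg
import Pool.Agent.SC15.F.Rat

/-!
Project SC15: assembly over the ring `W`.
-/

namespace SC15

open Finset NumberTheorySymbols

section

variable {p : ℕ} [hpf : Fact p.Prime] {W k : Type} [CommRing W] [IsDomain W] [CharZero W]
  [Field k] [Fintype k] [CharP k p] (L : Lift p W k)

include L in
omit hpf [IsDomain W] [CharZero W] [Fintype k] in
theorem int_dvd_of_W (n : ℤ) (h : (p : W) ∣ (n : W)) : (p : ℤ) ∣ n := by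
  have h1 : L.π (n : W) = 0 := (L.ker _).mpr h
  rw [map_intCast] at h1
  exact (CharP.intCast_eq_zero_iff k p n).mp h1

include L in
omit [Fintype k] [IsDomain W] [CharZero W] in
theorem int_sq_dvd_of_W (n : ℤ) (h : (p : W) ^ 2 ∣ (n : W)) : (p : ℤ) ^ 2 ∣ n := by
  have hp0 : (p : ℤ) ≠ 0 := by exact_mod_cast (Fact.out : p.Prime).ne_zero
  obtain ⟨m, rfl⟩ := int_dvd_of_W L n ((dvd_pow_self _ two_ne_zero).trans h)
  have h2 : (p : W) ∣ (m : W) := by
    obtain ⟨y, hy⟩ := h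
    refine ⟨y, ?_⟩
    have := L.tf ((m : W) - p * y) (by push_cast at hy; linear_combination hy)
    linear_combination this
  rw [pow_two]
  exact mul_dvd_mul_left _ (int_dvd_of_W L m h2)

omit [IsDomain W] [CharZero W] in
theorem SN_W {w : W} (hw : 3375 * w = 1) : (SN p : W) =
    3375 ^ (p - 1) * ∑ j ∈ range p, ((Nat.centralBinom j * u j : ℕ) : W) * w ^ j := by
  unfold SN
  push_cast
  rw [Finset.mul_sum]
  refine Finset.sum_congr rfl fun j hj => ?_
  have hj' : j ≤ p - 1 := by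
    have := Finset.mem_range.mp hj
    omega
  have e : (3375 : W) ^ (p - 1) = 3375 ^ (p - 1 - j) * 3375 ^ j := by
    rw [← pow_add]; congr 1; omega
  have e2 : (3375 : W) ^ j * w ^ j = 1 := by rw [← mul_pow, hw, one_pow]
  rw [e]
  linear_combination (-(3375 : W) ^ (p - 1 - j) * ((Nat.centralBinom j : W) * (u j : W))) * e2

include L in
omit [Fintype k] [IsDomain W] [CharZero W] in
/-- divisibility over `W` gives divisibility over `ℤ` -/
theorem descend {w : W} (hw : 3375 * w = 1) (t : ℤ)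
    (h : (p : W) ^ 2 ∣ ∑ j ∈ range p, ((Nat.centralBinom j * u j : ℕ) : W) * w ^ j - (t : W)) :
    (p : ℤ) ^ 2 ∣ SN p - t * 3375 ^ (p - 1) := by
  apply int_sq_dvd_of_W L
  push_cast
  rw [SN_W (p := p) hw]
  have e : (3375 : W) ^ (p - 1) * ∑ j ∈ range p, ((Nat.centralBinom j * u j : ℕ) : W) * w ^ j
      - t * 3375 ^ (p - 1)
      = 3375 ^ (p - 1) * (∑ j ∈ range p, ((Nat.centralBinom j * u j : ℕ) : W) * w ^ j - t) := by
    ring
  rw [e]
  exact h.mul_left _

theorem assemble (hp : 11 ≤ p) (hk : Fintype.card k = p ^ 2) (r5 r3 b0 : W) (hr5 : r5 ^ 2 = 5)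
    (hr3 : r3 ^ 2 = -3) (hb0 : 54 * 25 * b0 = 25 + 11 * r5)
    (A1 : (p : W) ^ 2 ∣ ∑ j ∈ range p, ((Nat.centralBinom j * u j : ℕ) : W) *
      (b0 * (1 - 27 * b0)) ^ j - P p b0 ^ 2)
    (A2 : ∀ b b' : W, 27 * (b + b') = 1 → (p : W) ^ 2 ∣ P p b' - (eps p : W) * P p b)
    (A3 : L.π (c (p ^ 2) b0) = L.π (P p b0) ^ (p + 1))
    (A4 : L.π (P p b0) ≠ 0 → (p : W) ^ 2 ∣ c (p ^ 3) b0 - c p b0 * P p (L.σ b0) * P p b0)
    (A5 : L.π (P p b0) = 0 → L.π (r5 * r3) ^ p = - L.π (r5 * r3))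
    (A6 : L.π (c p b0) = L.π (P p b0))
    (a z : ℤ) (hz : 4 * (p : ℤ) ^ 2 - a ^ 2 = 15 * z ^ 2) (h3 : 3 ∣ (p : ℤ) ^ 2 + 1 - a)
    (B1 : (p : W) ^ 2 ∣ c (p ^ 3) b0 - (a : W) * c p b0) (B2 : (p : W) ∣ c (p ^ 2) b0 - (a : W)) :
    ((p % 15 = 1 ∨ p % 15 = 4) → ∀ x y : ℤ, (p : ℤ) = x ^ 2 + 15 * y ^ 2 →
      (p : ℤ) ^ 2 ∣ SN p - (4 * x ^ 2 - 2 * p) * 3375 ^ (p - 1)) ∧
    ((p % 15 = 2 ∨ p % 15 = 8) → ∀ x y : ℤ, (p : ℤ) = 3 * x ^ 2 + 5 * y ^ 2 →
      (p : ℤ) ^ 2 ∣ SN p - (2 * p - 12 * x ^ 2) * 3375 ^ (p - 1)) ∧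
    ((p % 15 = 7 ∨ p % 15 = 11 ∨ p % 15 = 13 ∨ p % 15 = 14) →
      (p : ℤ) ^ 2 ∣ SN p - 0 * 3375 ^ (p - 1)) ∧
    ((p % 15 = 1 ∨ p % 15 = 2 ∨ p % 15 = 4 ∨ p % 15 = 8) → ¬ (p : ℤ) ∣ a) := by
  have hpp : p.Prime := Fact.out
  have hodd : Odd p := hpp.odd_of_ne_two (by omega)
  have hchar : ∀ n : ℤ, (n : k) = 0 → (p : ℤ) ∣ n := fun n h =>
    (CharP.intCast_eq_zero_iff k p n).mp h
  -- units
  have hunit : ∀ n : ℤ, ¬ (p : ℤ) ∣ n → IsUnit (n : W) := by
    intro n hn
    apply L.unit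
    rw [map_intCast]
    exact fun h => hn (hchar n h)
  have hsmall : ∀ q : ℕ, 0 < q → q < 11 → ¬ (p : ℤ) ∣ (q : ℤ) := by
    intro q hq hq' hd
    have : p ∣ q := by exact_mod_cast hd
    have := Nat.le_of_dvd hq this
    omega
  have hpprime : Prime (p : ℤ) := Nat.prime_iff_prime_int.mp hpp
  have h2nd : ¬ (p : ℤ) ∣ 2 := by exact_mod_cast hsmall 2 (by norm_num) (by norm_num)
  have h3nd : ¬ (p : ℤ) ∣ 3 := by exact_mod_cast hsmall 3 (by norm_num) (by norm_num)
  have h5nd : ¬ (p : ℤ) ∣ 5 := by exact_mod_cast hsmall 5 (by norm_num) (by norm_num)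
  have hu1350 : IsUnit ((1350 : ℤ) : W) := by
    apply hunit
    intro h
    have h' : (p : ℤ) ∣ 2 * (3 * 3 * 3 * (5 * 5)) := by norm_num; exact h
    rcases hpprime.dvd_or_dvd h' with h | h
    · exact h2nd h
    · rcases hpprime.dvd_or_dvd h with h | h
      · rcases hpprime.dvd_or_dvd h with h | h
        · rcases hpprime.dvd_or_dvd h with h | h <;> exact h3nd h
        · exact h3nd h
      · rcases hpprime.dvd_or_dvd h with h | h <;> exact h5nd h
  have hu2 : IsUnit ((2 : ℤ) : W) := hunit 2 h2nd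
  have hb0' : ((1350 : ℤ) : W) * b0 = 25 + 11 * r5 := by push_cast; linear_combination hb0
  have hw : 3375 * (b0 * (1 - 27 * b0)) = 1 := by
    have e : ((1350 : ℤ) : W) * (((1350 : ℤ) : W) * (3375 * (b0 * (1 - 27 * b0)))) =
        ((1350 : ℤ) : W) * (((1350 : ℤ) : W) * 1) := by
      push_cast at hb0' ⊢
      linear_combination (3375 * (1350 - 27 * 1350 * b0 - 27 * (25 + 11 * r5))) * hb0'
        - 3375 * 27 * 121 * hr5
    exact hu1350.mul_left_cancel (hu1350.mul_left_cancel e)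
  -- the conclusion from a congruence for `P^2`
  have fin : ∀ t : ℤ, (p : W) ^ 2 ∣ P p b0 ^ 2 - (t : W) →
      (p : ℤ) ^ 2 ∣ SN p - t * 3375 ^ (p - 1) := by
    intro t ht
    apply descend L hw t
    have := dvd_add A1 ht
    have e : ∑ j ∈ range p, ((Nat.centralBinom j * u j : ℕ) : W) * (b0 * (1 - 27 * b0)) ^ j
        - P p b0 ^ 2 + (P p b0 ^ 2 - (t : W)) =
        ∑ j ∈ range p, ((Nat.centralBinom j * u j : ℕ) : W) * (b0 * (1 - 27 * b0)) ^ j - t := by
      ring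
    rwa [e] at this
  -- `a` modulo `p`
  have haP : ((a : ℤ) : k) = L.π (P p b0) ^ (p + 1) := by
    have h1 : L.π (c (p ^ 2) b0 - (a : W)) = 0 := (L.ker _).mpr B2
    rw [map_sub, map_intCast, A3, sub_eq_zero] at h1
    exact h1.symm
  have inertCase : (p % 15 = 7 ∨ p % 15 = 11 ∨ p % 15 = 13 ∨ p % 15 = 14) →
      (p : ℤ) ^ 2 ∣ SN p - 0 * 3375 ^ (p - 1) := by
    intro h15
    have h1 : (p : ℤ) ∣ a := inert_dvd hpp (by omega) h15 hz
    have h2 : ((a : ℤ) : k) = 0 := (CharP.intCast_eq_zero_iff k p a).mpr h1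
    rw [h2] at haP
    have h3 : L.π (P p b0) = 0 := by
      by_contra hne
      exact pow_ne_zero _ hne haP.symm
    obtain ⟨y, hy⟩ := (L.ker _).mp h3
    have := fin 0 ⟨y ^ 2, by rw [hy]; push_cast; ring⟩
    exact_mod_cast this
  -- the split case
  have splitP : (p % 15 = 1 ∨ p % 15 = 2 ∨ p % 15 = 4 ∨ p % 15 = 8) → L.π (P p b0) ≠ 0 := by
    intro h15 h0
    have hx := A5 h0
    have hJ := jac_split hodd h15
    have hE : ((-15 : ℤ) : ZMod p) ^ (p / 2) = 1 := by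
      rw [← pow_half, hJ]; simp
    have hE' : ((-15 : ℤ) : k) ^ (p / 2) = 1 := by
      have := congrArg (ZMod.castHom (dvd_refl p) k) hE
      rwa [map_pow, map_intCast, map_one] at this
    have hsq : L.π (r5 * r3) ^ 2 = ((-15 : ℤ) : k) := by
      rw [← map_pow]
      have : (r5 * r3) ^ 2 = ((-15 : ℤ) : W) := by
        push_cast
        linear_combination r3 ^ 2 * hr5 + 5 * hr3
      rw [this, map_intCast]
    have hpow : L.π (r5 * r3) ^ p = L.π (r5 * r3) := by
      obtain ⟨m, hm⟩ := hodd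
      have e1 : p / 2 = m := by omega
      rw [e1] at hE'
      calc L.π (r5 * r3) ^ p = L.π (r5 * r3) ^ (2 * m + 1) := by rw [← hm]
        _ = (L.π (r5 * r3) ^ 2) ^ m * L.π (r5 * r3) := by rw [pow_succ, pow_mul]
        _ = L.π (r5 * r3) := by rw [hsq, hE', one_mul]
    rw [hpow] at hx
    have h2x : (2 : k) * L.π (r5 * r3) = 0 := by linear_combination hx
    have h2k : ((2 : ℤ) : k) ≠ 0 := fun h => h2nd (hchar 2 h)
    rcases mul_eq_zero.mp h2x with h | h
    · exact h2k (by exact_mod_cast h)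
    · rw [h] at hsq
      have h15' : ((-15 : ℤ) : k) = 0 := by rw [← hsq]; ring
      have hd := hchar _ h15'
      have hd' : (p : ℤ) ∣ 3 * 5 := by
        have := (dvd_neg.mpr hd)
        norm_num at this ⊢
        exact this
      rcases hpprime.dvd_or_dvd hd' with h | h
      · exact h3nd h
      · exact h5nd h
  have split : (p % 15 = 1 ∨ p % 15 = 2 ∨ p % 15 = 4 ∨ p % 15 = 8) →
      ¬ (p : ℤ) ∣ a ∧ (p : W) ^ 2 ∣ (a : W) - P p (L.σ b0) * P p b0 := by
    intro h15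
    have hP := splitP h15
    refine ⟨fun hd => ?_, ?_⟩
    · have h2 : ((a : ℤ) : k) = 0 := (CharP.intCast_eq_zero_iff k p a).mpr hd
      rw [h2] at haP
      exact pow_ne_zero _ hP haP.symm
    · have h4 := A4 hP
      have hu : IsUnit (c p b0) := L.unit _ (by rw [A6]; exact hP)
      have h5 := dvd_sub h4 B1
      have e : c (p ^ 3) b0 - c p b0 * P p (L.σ b0) * P p b0 - (c (p ^ 3) b0 - (a : W) * c p b0)
          = c p b0 * ((a : W) - P p (L.σ b0) * P p b0) := by ring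
      rw [e] at h5
      exact (hu.dvd_mul_left).mp h5
  -- the action of `σ` on `r5`
  have hσ2 : (L.σ r5 - r5) * (L.σ r5 + r5) = 0 := by
    have : L.σ r5 ^ 2 = 5 := by rw [← map_pow, hr5, map_ofNat]
    linear_combination this - hr5
  have hπ5 : L.π r5 ^ 2 = ((5 : ℤ) : k) := by
    rw [← map_pow, hr5]; push_cast; rw [map_ofNat]
  have hπ50 : L.π r5 ≠ 0 := by
    intro h
    rw [h] at hπ5
    exact h5nd (hchar 5 (by rw [← hπ5]; ring))
  have h2k : (2 : k) ≠ 0 := fun h => h2nd (hchar 2 (by exact_mod_cast h))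
  have hfr : ∀ e : ℤ, J(5 | p) = e → L.π (L.σ r5) = (e : k) * L.π r5 := by
    intro e he
    have hE : ((5 : ℤ) : ZMod p) ^ (p / 2) = (e : ZMod p) := by rw [← pow_half, he]
    have hE' : ((5 : ℤ) : k) ^ (p / 2) = (e : k) := by
      have := congrArg (ZMod.castHom (dvd_refl p) k) hE
      rwa [map_pow, map_intCast, map_intCast] at this
    obtain ⟨m, hm⟩ := hodd
    have e1 : p / 2 = m := by omega
    rw [e1] at hE'
    rw [L.frob]
    calc L.π r5 ^ p = L.π r5 ^ (2 * m + 1) := by rw [← hm]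
      _ = (L.π r5 ^ 2) ^ m * L.π r5 := by rw [pow_succ, pow_mul]
      _ = _ := by rw [hπ5, hE']
  have hσb : ((1350 : ℤ) : W) * L.σ b0 = 25 + 11 * L.σ r5 := by
    have := congrArg L.σ hb0'
    simpa only [map_mul, map_intCast, map_add, map_ofNat] using this
  refine ⟨?_, ?_, inertCase, fun h => (split h).1⟩
  · -- `p ≡ 1, 4 mod 15`
    intro h15 x y hxy
    obtain ⟨hpa, hcong⟩ := split (by omega)
    have hJ : J(5 | p) = 1 := jac_five_one hodd (by omega)
    have hr := hfr 1 hJ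
    have hσ : L.σ r5 = r5 := by
      rcases mul_eq_zero.mp hσ2 with h | h
      · exact sub_eq_zero.mp h
      · exfalso
        have h' : L.σ r5 = - r5 := by linear_combination h
        rw [h', map_neg] at hr
        have : (2 : k) * L.π r5 = 0 := by push_cast at hr; linear_combination -hr
        rcases mul_eq_zero.mp this with h | h
        · exact h2k h
        · exact hπ50 h
    have hσb' : L.σ b0 = b0 := by
      apply hu1350.mul_left_cancel
      rw [hσb, hσ, hb0']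
    rw [hσb'] at hcong
    have ha := nt1 hpp (by omega) hz h3 hpa hxy
    rw [← ha]
    apply fin
    have e : P p b0 ^ 2 - (a : W) = -((a : W) - P p b0 * P p b0) := by ring
    rw [e]
    exact (dvd_neg).mpr hcong
  · -- `p ≡ 2, 8 mod 15`
    intro h15 x y hxy
    obtain ⟨hpa, hcong⟩ := split (by omega)
    have hJ : J(5 | p) = -1 := jac_five_neg hodd (by omega)
    have hr := hfr (-1) hJ
    have hσ : L.σ r5 = - r5 := by
      rcases mul_eq_zero.mp hσ2 with h | h
      · exfalso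
        have h' : L.σ r5 = r5 := by linear_combination h
        rw [h'] at hr
        have : (2 : k) * L.π r5 = 0 := by push_cast at hr; linear_combination hr
        rcases mul_eq_zero.mp this with h | h
        · exact h2k h
        · exact hπ50 h
      · linear_combination h
    have hrefl : 27 * (b0 + L.σ b0) = 1 := by
      apply hu1350.mul_left_cancel
      push_cast at hσb hb0' ⊢
      rw [hσ] at hσb
      linear_combination 27 * hσb + 27 * hb0'
    have h2' := A2 b0 (L.σ b0) hrefl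
    have heps : eps p = -1 := by
      unfold eps
      rw [if_neg (by omega)]
    rw [heps] at h2'
    have ha := nt2 hpp (by omega) hz h3 hpa hxy
    have e2 : (2 * (p : ℤ) - 12 * x ^ 2) = -a := by rw [ha]; ring
    rw [e2]
    apply fin
    obtain ⟨y1, hy1⟩ := h2'
    obtain ⟨y2, hy2⟩ := hcong
    refine ⟨y2 + y1 * P p b0, ?_⟩
    push_cast at hy1 ⊢
    linear_combination hy2 + P p b0 * hy1

end

end SC15
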