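import Mathlib

/-!
Project SC15: existence of the representations `p = x^2 + 15 y^2` and `p = 3 x^2 + 5 y^2`.
-/

namespace SC15

theorem sq_pos_of_mul {u v w : ℤ} (hu : 0 < u) (hc : IsCoprime u v) (h : u * v = w ^ 2) :
    ∃ s : ℤ, u = s ^ 2 := by
  obtain ⟨s, hs⟩ := Int.sq_of_gcd_eq_one (Int.isCoprime_iff_gcd_eq_one.mp hc) h
  rcases hs with hs | hs
  · exact ⟨s, hs⟩
  · exfalso
    nlinarith [sq_nonneg s]

/-- coprime positive `u v = 15 w^2` -/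
theorem coprime_fifteen {u v w : ℤ} (hu : 0 < u) (hv : 0 < v) (hc : IsCoprime u v)
    (h : u * v = 15 * w ^ 2) : ∃ s t : ℤ, u + v = s ^ 2 + 15 * t ^ 2 ∨
      u + v = 3 * s ^ 2 + 5 * t ^ 2 := by
  have p3 : Prime (3 : ℤ) := Int.prime_three
  have p5 : Prime (5 : ℤ) := by
    rw [← Nat.prime_iff_prime_int.trans (by norm_num : Prime ((5 : ℕ) : ℤ) ↔ Prime (5 : ℤ))]
    norm_num
  have d3 : (3 : ℤ) ∣ u * v := ⟨5 * w ^ 2, by rw [h]; ring⟩
  have d5 : (5 : ℤ) ∣ u * v := ⟨3 * w ^ 2, by rw [h]; ring⟩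
  rcases p3.dvd_or_dvd d3 with h3 | h3 <;> rcases p5.dvd_or_dvd d5 with h5 | h5
  · obtain ⟨u', rfl⟩ : (15 : ℤ) ∣ u := by
      have : IsCoprime (3 : ℤ) 5 := ⟨2, -1, by norm_num⟩
      have := this.mul_dvd h3 h5
      norm_num at this
      exact this
    have e : u' * v = w ^ 2 := by
      have : 15 * (u' * v) = 15 * w ^ 2 := by rw [← h]; ring
      exact mul_left_cancel₀ (by norm_num) this
    have hu' : 0 < u' := by linarith
    have hc' : IsCoprime u' v := hc.of_mul_left_right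
    obtain ⟨s, hs⟩ := sq_pos_of_mul hu' hc' e
    obtain ⟨t, ht⟩ := sq_pos_of_mul hv hc'.symm (by rw [mul_comm]; exact e)
    exact ⟨t, s, Or.inl (by rw [hs, ht]; ring)⟩
  · obtain ⟨u', rfl⟩ := h3
    obtain ⟨v', rfl⟩ := h5
    have e : u' * v' = w ^ 2 := by
      have : 15 * (u' * v') = 15 * w ^ 2 := by rw [← h]; ring
      exact mul_left_cancel₀ (by norm_num) this
    have hc' : IsCoprime u' v' := hc.of_mul_left_right.of_mul_right_right
    obtain ⟨s, hs⟩ := sq_pos_of_mul (by linarith) hc' e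
    obtain ⟨t, ht⟩ := sq_pos_of_mul (by linarith) hc'.symm (by rw [mul_comm]; exact e)
    exact ⟨s, t, Or.inr (by rw [hs, ht])⟩
  · obtain ⟨v', rfl⟩ := h3
    obtain ⟨u', rfl⟩ := h5
    have e : u' * v' = w ^ 2 := by
      have : 15 * (u' * v') = 15 * w ^ 2 := by rw [← h]; ring
      exact mul_left_cancel₀ (by norm_num) this
    have hc' : IsCoprime u' v' := hc.of_mul_left_right.of_mul_right_right
    obtain ⟨s, hs⟩ := sq_pos_of_mul (by linarith) hc' e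
    obtain ⟨t, ht⟩ := sq_pos_of_mul (by linarith) hc'.symm (by rw [mul_comm]; exact e)
    exact ⟨t, s, Or.inr (by rw [hs, ht]; ring)⟩
  · obtain ⟨v', rfl⟩ : (15 : ℤ) ∣ v := by
      have : IsCoprime (3 : ℤ) 5 := ⟨2, -1, by norm_num⟩
      have := this.mul_dvd h3 h5
      norm_num at this
      exact this
    have e : u * v' = w ^ 2 := by
      have : 15 * (u * v') = 15 * w ^ 2 := by rw [← h]; ring
      exact mul_left_cancel₀ (by norm_num) this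
    have hc' : IsCoprime u v' := hc.of_mul_right_right
    obtain ⟨s, hs⟩ := sq_pos_of_mul hu hc' e
    obtain ⟨t, ht⟩ := sq_pos_of_mul (by linarith) hc'.symm (by rw [mul_comm]; exact e)
    exact ⟨s, t, Or.inl (by rw [hs, ht])⟩

theorem rep_core {p : ℕ} (hp : p.Prime) (hp5 : 5 < p) {a z : ℤ}
    (h : 4 * (p : ℤ) ^ 2 - a ^ 2 = 15 * z ^ 2) (hpa : ¬ (p : ℤ) ∣ a) :
    ∃ s t : ℤ, (p : ℤ) = s ^ 2 + 15 * t ^ 2 ∨ (p : ℤ) = 3 * s ^ 2 + 5 * t ^ 2 := by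
  have hodd : (p : ℤ) % 2 = 1 := by
    have := (hp.eq_two_or_odd).resolve_left (by omega)
    omega
  obtain ⟨m, hm⟩ : ∃ m : ℤ, (p : ℤ) = 2 * m + 1 := ⟨(p : ℤ) / 2, by omega⟩
  -- `a` is even
  have ha : a % 2 = 0 := by
    by_contra ha
    obtain ⟨b, hb⟩ : ∃ b : ℤ, a = 2 * b + 1 := ⟨a / 2, by omega⟩
    rcases Int.even_or_odd z with ⟨w, hw⟩ | ⟨w, hw⟩
    · have : 2 * (2 * (p : ℤ) ^ 2 - 2 * b ^ 2 - 2 * b - 30 * w ^ 2) = 1 := by
        rw [hw, hb] at h; linear_combination h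
      omega
    · have e : 4 * (2 * m + 1) ^ 2 - (2 * b + 1) ^ 2 = 15 * (2 * w + 1) ^ 2 := by
        rw [← hm, ← hb, ← hw]; exact h
      obtain ⟨b', hb'⟩ : ∃ c : ℤ, b ^ 2 + b = 2 * c := by
        have : Even (b * (b + 1)) := Int.even_mul_succ_self b
        obtain ⟨c, hc⟩ := this
        exact ⟨c, by linear_combination hc⟩
      obtain ⟨w', hw'⟩ : ∃ c : ℤ, w ^ 2 + w = 2 * c := by
        have : Even (w * (w + 1)) := Int.even_mul_succ_self w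
        obtain ⟨c, hc⟩ := this
        exact ⟨c, by linear_combination hc⟩
      have : 8 * (2 * m ^ 2 + 2 * m - b' - 15 * w') = 12 := by
        linear_combination e + 4 * hb' + 60 * hw'
      omega
  obtain ⟨a', ha'⟩ : ∃ b : ℤ, a = 2 * b := ⟨a / 2, by omega⟩
  have hz : z % 2 = 0 := by
    by_contra hz
    obtain ⟨w, hw⟩ : ∃ b : ℤ, z = 2 * b + 1 := ⟨z / 2, by omega⟩
    have : 2 * (2 * (p : ℤ) ^ 2 - 2 * a' ^ 2 - 30 * w ^ 2 - 30 * w) = 15 := by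
      rw [ha', hw] at h; linear_combination h
    omega
  obtain ⟨z', hz'⟩ : ∃ b : ℤ, z = 2 * b := ⟨z / 2, by omega⟩
  have h1 : (p : ℤ) ^ 2 - a' ^ 2 = 15 * z' ^ 2 := by
    rw [ha', hz'] at h
    have : 4 * ((p : ℤ) ^ 2 - a' ^ 2) = 4 * (15 * z' ^ 2) := by linear_combination h
    exact mul_left_cancel₀ (by norm_num) this
  -- `a'` is odd
  have ha2 : a' % 2 = 1 := by
    by_contra ha2
    obtain ⟨b, hb⟩ : ∃ b : ℤ, a' = 2 * b := ⟨a' / 2, by omega⟩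
    rcases Int.even_or_odd z' with ⟨w, hw⟩ | ⟨w, hw⟩
    · have : 2 * (2 * m ^ 2 + 2 * m - 2 * b ^ 2 - 30 * w ^ 2) = -1 := by
        rw [hm, hb, hw] at h1; linear_combination h1
      omega
    · have : 4 * (m ^ 2 + m - b ^ 2 - 15 * w ^ 2 - 15 * w) = 14 := by
        rw [hm, hb, hw] at h1; linear_combination h1
      omega
  obtain ⟨b, hb⟩ : ∃ b : ℤ, a' = 2 * b + 1 := ⟨a' / 2, by omega⟩
  have hz2 : z' % 2 = 0 := by
    by_contra hz2
    obtain ⟨w, hw⟩ : ∃ b : ℤ, z' = 2 * b + 1 := ⟨z' / 2, by omega⟩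
    have : 2 * (2 * m ^ 2 + 2 * m - 2 * b ^ 2 - 2 * b - 30 * w ^ 2 - 30 * w) = 15 := by
      rw [hm, hb, hw] at h1; linear_combination h1
    omega
  obtain ⟨w, hw⟩ : ∃ b : ℤ, z' = 2 * b := ⟨z' / 2, by omega⟩
  -- `u = m - b`, `v = m + b + 1`
  have h2 : (m - b) * (m + b + 1) = 15 * w ^ 2 := by
    rw [hm, hb, hw] at h1
    have : 4 * ((m - b) * (m + b + 1)) = 4 * (15 * w ^ 2) := by linear_combination h1
    exact mul_left_cancel₀ (by norm_num) this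
  have hz0 : z ≠ 0 := by
    rintro rfl
    have : (2 * (p : ℤ)) ^ 2 = a ^ 2 := by linear_combination h
    rcases sq_eq_sq_iff_eq_or_eq_neg.mp this with h' | h'
    · exact hpa ⟨2, by linarith⟩
    · exact hpa ⟨-2, by linarith⟩
  have hw0 : w ≠ 0 := by
    rintro rfl
    apply hz0; rw [hz', hw]; ring
  have hw2 : 0 < w ^ 2 := by positivity
  have hsum : (m - b) + (m + b + 1) = p := by rw [hm]; ring
  have hppos : (0 : ℤ) < p := by exact_mod_cast hp.pos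
  have hu : 0 < m - b := by
    by_contra hneg
    push Not at hneg
    have : 0 < m + b + 1 := by linarith
    nlinarith
  have hv : 0 < m + b + 1 := by
    by_contra hneg
    push Not at hneg
    nlinarith
  have hc : IsCoprime (m - b) (m + b + 1) := by
    have hpp : Prime (p : ℤ) := Nat.prime_iff_prime_int.mp hp
    have h3 : IsCoprime (p : ℤ) (m - b) := by
      rw [hpp.coprime_iff_not_dvd]
      intro hd
      have := Int.le_of_dvd hu hd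
      linarith
    have : m + b + 1 = p - (m - b) := by linarith
    rw [this]
    obtain ⟨α, β, hαβ⟩ := h3
    exact ⟨α + β, α, by linear_combination hαβ⟩
  obtain ⟨s, t, hst⟩ := coprime_fifteen hu hv hc h2
  rw [hsum] at hst
  exact ⟨s, t, hst⟩

theorem rep1 {p : ℕ} (hp : p.Prime) (hp5 : 5 < p) {a z : ℤ}
    (h : 4 * (p : ℤ) ^ 2 - a ^ 2 = 15 * z ^ 2) (hpa : ¬ (p : ℤ) ∣ a) (h3 : p % 3 = 1) :
    ∃ x y : ℤ, (p : ℤ) = x ^ 2 + 15 * y ^ 2 := by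
  obtain ⟨s, t, hst | hst⟩ := rep_core hp hp5 h hpa
  · exact ⟨s, t, hst⟩
  · exfalso
    have h3' : (p : ℤ) % 3 = 1 := by omega
    rcases (by omega : t % 3 = 0 ∨ t % 3 = 1 ∨ t % 3 = 2) with ht | ht | ht
    · obtain ⟨w, hw⟩ : ∃ b : ℤ, t = 3 * b := ⟨t / 3, by omega⟩
      have : (p : ℤ) = 3 * (s ^ 2 + 15 * w ^ 2) := by rw [hst, hw]; ring
      omega
    · obtain ⟨w, hw⟩ : ∃ b : ℤ, t = 3 * b + 1 := ⟨t / 3, by omega⟩
      have : (p : ℤ) = 3 * (s ^ 2 + 15 * w ^ 2 + 10 * w + 1) + 2 := by rw [hst, hw]; ring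
      omega
    · obtain ⟨w, hw⟩ : ∃ b : ℤ, t = 3 * b + 2 := ⟨t / 3, by omega⟩
      have : (p : ℤ) = 3 * (s ^ 2 + 15 * w ^ 2 + 20 * w + 6) + 2 := by rw [hst, hw]; ring
      omega

theorem rep2 {p : ℕ} (hp : p.Prime) (hp5 : 5 < p) {a z : ℤ}
    (h : 4 * (p : ℤ) ^ 2 - a ^ 2 = 15 * z ^ 2) (hpa : ¬ (p : ℤ) ∣ a) (h3 : p % 3 = 2) :
    ∃ x y : ℤ, (p : ℤ) = 3 * x ^ 2 + 5 * y ^ 2 := by
  obtain ⟨s, t, hst | hst⟩ := rep_core hp hp5 h hpa
  · exfalso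
    have h3' : (p : ℤ) % 3 = 2 := by omega
    rcases (by omega : s % 3 = 0 ∨ s % 3 = 1 ∨ s % 3 = 2) with ht | ht | ht
    · obtain ⟨w, hw⟩ : ∃ b : ℤ, s = 3 * b := ⟨s / 3, by omega⟩
      have : (p : ℤ) = 3 * (3 * w ^ 2 + 5 * t ^ 2) := by rw [hst, hw]; ring
      omega
    · obtain ⟨w, hw⟩ : ∃ b : ℤ, s = 3 * b + 1 := ⟨s / 3, by omega⟩
      have : (p : ℤ) = 3 * (3 * w ^ 2 + 2 * w + 5 * t ^ 2) + 1 := by rw [hst, hw]; ring
      omega
    · obtain ⟨w, hw⟩ : ∃ b : ℤ, s = 3 * b + 2 := ⟨s / 3, by omega⟩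
      have : (p : ℤ) = 3 * (3 * w ^ 2 + 4 * w + 1 + 5 * t ^ 2) + 1 := by rw [hst, hw]; ring
      omega
  · exact ⟨s, t, hst⟩

end SC15
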