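import Mathlib
import Pool.Agent.SC15.Defs

/-!
Project SC15: the ring `W` of Witt vectors over the field with `p^2` elements, with square roots of
`5` and `-3`.
-/

namespace SC15

open Polynomial

/-- the Frobenius lift of the ring of Witt vectors of a finite field -/
noncomputable def wittLift (p : ℕ) [Fact p.Prime] (k : Type) [Field k] [CharP k p]
    [PerfectRing k p] : Lift p (WittVector p k) k where
  π := WittVector.constantCoeff
  σ := WittVector.frobenius
  ker x := by
    have := WittVector.mem_span_p_iff_coeff_zero_eq_zero (p := p) x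
    rw [Ideal.mem_span_singleton] at this
    exact this.symm
  unit x hx := WittVector.isUnit_of_coeff_zero_ne_zero x hx
  frob x := by
    change (WittVector.frobenius x).coeff 0 = x.coeff 0 ^ p
    rw [WittVector.coeff_frobenius_charP]
  tf x hx := WittVector.eq_zero_of_p_mul_eq_zero x (by rw [mul_comm]; exact hx)

theorem witt_charZero (p : ℕ) [Fact p.Prime] (k : Type) [Field k] [CharP k p]
    [PerfectRing k p] : CharZero (WittVector p k) := by
  have hp : p.Prime := Fact.out
  refine charZero_of_inj_zero ?_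
  intro n h00
  by_contra hn
  revert h00
  induction n using Nat.strong_induction_on with
  | _ n ih =>
    intro h0
    have h1 : (n : k) = 0 := by
      have := congrArg (WittVector.constantCoeff (p := p) (R := k)) h0
      simpa using this
    have h2 : p ∣ n := (CharP.cast_eq_zero_iff k p n).mp h1
    obtain ⟨m, rfl⟩ := h2
    have hm0 : m ≠ 0 := by rintro rfl; simp at hn
    have hmlt : m < p * m := by
      have := hp.two_le
      nlinarith [Nat.pos_of_ne_zero hm0]
    refine ih m hmlt hm0 ?_
    apply WittVector.eq_zero_of_p_mul_eq_zero (p := p) (k := k)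
    rw [← h0]; push_cast; ring

theorem witt_sqrt (p : ℕ) [Fact p.Prime] (k : Type) [Field k] [CharP k p]
    [PerfectRing k p] (h2 : (2 : k) ≠ 0) (n : WittVector p k) (t : k)
    (ht : t ^ 2 = WittVector.constantCoeff n) (ht0 : t ≠ 0) :
    ∃ r : WittVector p k, r ^ 2 = n := by
  obtain ⟨a, ha⟩ := WittVector.constantCoeff_surjective (p := p) (R := k) t
  have hen := IsAdicComplete.henselianRing (WittVector p k) (Ideal.span {(p : WittVector p k)})
  have hmem : ∀ x : WittVector p k, x ∈ Ideal.span {(p : WittVector p k)} ↔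
      WittVector.constantCoeff x = 0 := fun x =>
    WittVector.mem_span_p_iff_coeff_zero_eq_zero (p := p) x
  obtain ⟨r, hr, -⟩ := hen.is_henselian (X ^ 2 - C (n : WittVector p k))
    (monic_X_pow_sub_C _ two_ne_zero) a (by
      rw [hmem, eval_sub, eval_pow, eval_X, eval_C, map_sub, map_pow, ha, ht, sub_self]) (by
      have hu : IsUnit (2 * a) := by
        apply WittVector.isUnit_of_coeff_zero_ne_zero
        change WittVector.constantCoeff (2 * a) ≠ 0
        rw [map_mul, ha, map_ofNat]
        exact mul_ne_zero h2 ht0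
      have : (derivative (X ^ 2 - C (n : WittVector p k))).eval a = 2 * a := by
        rw [derivative_sub, derivative_C, sub_zero, derivative_X_pow, eval_mul, eval_C, eval_pow,
          eval_X, pow_one, Nat.cast_ofNat]
      rw [this]
      exact hu.map _)
  refine ⟨r, ?_⟩
  simpa [sub_eq_zero] using hr

theorem galois_sqrt (p : ℕ) [Fact p.Prime] (k : Type) [Field k] [Fintype k] [CharP k p]
    (hk : Fintype.card k = p ^ 2) (hp2 : p ≠ 2) (n : ℤ) (hn : (n : k) ≠ 0) :
    ∃ t : k, t ^ 2 = n := by
  have hp : p.Prime := Fact.out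
  have hodd : p % 2 = 1 := hp.eq_two_or_odd.resolve_left hp2
  have hc : ringChar k ≠ 2 := by
    rw [ringChar.eq k p]; exact hp2
  have h1 : (n : k) ^ (p - 1) = 1 := by
    have h2 : ((n : ZMod p)) ^ (p - 1) = 1 := by
      apply ZMod.pow_card_sub_one_eq_one
      intro h
      apply hn
      have := congrArg (ZMod.castHom (dvd_refl p) k) h
      simpa using this
    have := congrArg (ZMod.castHom (dvd_refl p) k) h2
    simpa using this
  have h3 : IsSquare (n : k) := by
    rw [FiniteField.isSquare_iff hc hn, hk]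
    have : p ^ 2 / 2 = (p - 1) * ((p + 1) / 2) := by
      obtain ⟨m, hm⟩ : ∃ m, p = 2 * m + 1 := ⟨p / 2, by omega⟩
      subst hm
      have e1 : (2 * m + 1) ^ 2 / 2 = 2 * m * (m + 1) := by
        have : (2 * m + 1) ^ 2 = 2 * (2 * m * (m + 1)) + 1 := by ring
        omega
      have e2 : (2 * m + 1 + 1) / 2 = m + 1 := by omega
      rw [e1, e2]
      simp
    rw [this, pow_mul, h1, one_pow]
  obtain ⟨t, ht⟩ := h3
  exact ⟨t, by rw [ht]; ring⟩

theorem exists_data (p : ℕ) [hpf : Fact p.Prime] (hp : 7 ≤ p) :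
    ∃ (W k : Type) (_ : CommRing W) (_ : IsDomain W) (_ : CharZero W) (_ : Field k)
      (_ : Fintype k) (_ : CharP k p) (L : Lift p W k) (r5 r3 b0 : W),
      Fintype.card k = p ^ 2 ∧ r5 ^ 2 = 5 ∧ r3 ^ 2 = -3 ∧ 54 * 25 * b0 = 25 + 11 * r5 := by
  have hpp : p.Prime := Fact.out
  let k := GaloisField p 2
  haveI : Fintype k := Fintype.ofFinite k
  have hk : Fintype.card k = p ^ 2 := by
    rw [← Nat.card_eq_fintype_card]
    exact GaloisField.card p 2 two_ne_zero
  have hk0 : ∀ n : ℤ, n.natAbs < p ∨ (∀ q, q.Prime → q ∣ n.natAbs → q < 7) → n ≠ 0 →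
      (n : k) ≠ 0 := by
    intro n hn hn0 h0
    have h1 : (p : ℤ) ∣ n := (CharP.intCast_eq_zero_iff k p n).mp h0
    have h2 : p ∣ n.natAbs := by
      have := Int.natAbs_dvd_natAbs.mpr h1
      simpa using this
    rcases hn with hn | hn
    · exact absurd (Nat.le_of_dvd (Int.natAbs_pos.mpr hn0) h2) (by omega)
    · exact absurd (hn p hpp h2) (by omega)
  have h2 : (2 : k) ≠ 0 := by
    have := hk0 2 (Or.inl (by simp; omega)) (by norm_num)
    simpa using this
  have h5 : ((5 : ℤ) : k) ≠ 0 := hk0 5 (Or.inl (by simp; omega)) (by norm_num)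
  have h3 : ((-3 : ℤ) : k) ≠ 0 := hk0 (-3) (Or.inl (by simp; omega)) (by norm_num)
  obtain ⟨t5, ht5⟩ := galois_sqrt p k hk (by omega) 5 h5
  obtain ⟨t3, ht3⟩ := galois_sqrt p k hk (by omega) (-3) h3
  have ht50 : t5 ≠ 0 := by rintro rfl; apply h5; rw [← ht5]; ring
  have ht30 : t3 ≠ 0 := by rintro rfl; apply h3; rw [← ht3]; ring
  obtain ⟨r5, hr5⟩ := witt_sqrt p k h2 5 t5 (by rw [ht5, map_ofNat]; norm_num) ht50
  obtain ⟨r3, hr3⟩ := witt_sqrt p k h2 (-3) t3 (by rw [ht3, map_neg, map_ofNat]; norm_num) ht30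
  let L := wittLift p k
  have hu : IsUnit (54 * 25 : WittVector p k) := by
    apply L.unit
    change L.π (54 * 25) ≠ 0
    have h1350 : ((1350 : ℤ) : k) ≠ 0 := by
      apply hk0 1350 (Or.inr ?_) (by norm_num)
      intro q hq hd
      have : (1350 : ℤ).natAbs = 2 * 3 ^ 3 * 5 ^ 2 := by norm_num
      rw [this] at hd
      rcases (Nat.Prime.dvd_mul hq).mp hd with h | h
      · rcases (Nat.Prime.dvd_mul hq).mp h with h | h
        · have := Nat.le_of_dvd (by norm_num) h; omega
        · have := Nat.le_of_dvd (by norm_num) (hq.dvd_of_dvd_pow h); omega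
      · have := Nat.le_of_dvd (by norm_num) (hq.dvd_of_dvd_pow h); omega
    have e : L.π (54 * 25) = ((1350 : ℤ) : k) := by
      rw [map_mul, map_ofNat, map_ofNat]; norm_num
    rw [e]; exact h1350
  obtain ⟨v, hv⟩ := hu.exists_right_inv
  refine ⟨WittVector p k, k, inferInstance, inferInstance, witt_charZero p k, inferInstance,
    inferInstance, inferInstance, L, r5, r3, v * (25 + 11 * r5), hk, ?_, ?_, ?_⟩
  · exact hr5
  · exact hr3
  · linear_combination (25 + 11 * r5) * hv

end SC15
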