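import Mathlib
import Pool.Agent.SC15.A.Final
import Pool.Agent.SC15.B.Final
import Pool.Agent.SC15.F.Main
import Pool.Agent.SC15.F.Witt
import Pool.Agent.SC15.F.Rep

/-!
Project SC15: the supercongruence for all primes `p > 5`.
-/

namespace SC15

open Finset

theorem full (p : ℕ) (hpp : p.Prime) (hp5 : 5 < p) :
    ((p % 15 = 1 ∨ p % 15 = 4) → (∃ x y : ℤ, (p : ℤ) = x ^ 2 + 15 * y ^ 2) ∧
      ∀ x y : ℤ, (p : ℤ) = x ^ 2 + 15 * y ^ 2 → CongSq p (S p) (4 * x ^ 2 - 2 * p)) ∧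
    ((p % 15 = 2 ∨ p % 15 = 8) → (∃ x y : ℤ, (p : ℤ) = 3 * x ^ 2 + 5 * y ^ 2) ∧
      ∀ x y : ℤ, (p : ℤ) = 3 * x ^ 2 + 5 * y ^ 2 → CongSq p (S p) (2 * p - 12 * x ^ 2)) ∧
    ((p % 15 = 7 ∨ p % 15 = 11 ∨ p % 15 = 13 ∨ p % 15 = 14) → CongSq p (S p) 0) := by
  haveI : Fact p.Prime := ⟨hpp⟩
  by_cases h11 : 11 ≤ p
  · obtain ⟨W, k, _, _, _, _, _, _, L, r5, r3, b0, hk, hr5, hr3, hb0⟩ := exists_data p (by omega)
    obtain ⟨a, z, hz, h3, B1, B2⟩ := partB h11 L hk r5 r3 b0 hr5 hr3 hb0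
    have h7 : 7 ≤ p := by omega
    have A1' := A1 h7 b0
    obtain ⟨c1, c2, c3, c4⟩ := assemble L h11 hk r5 r3 b0 hr5 hr3 hb0
      (by
        have := A1'
        simp only [Nat.cast_mul]
        exact this)
      (fun b b' h => A2 h7 h) (A3 h7 L b0) (fun hP => A4 h7 L hr5 hr3 hb0 hP)
      (fun hP => A5 h7 L hr5 hr3 hb0 hP) (pi_c h7 L b0) a z hz h3 B1 B2
    refine ⟨fun h => ⟨rep1 hpp hp5 hz (c4 (by omega)) (by omega), fun x y hxy => ?_⟩,
      fun h => ⟨rep2 hpp hp5 hz (c4 (by omega)) (by omega), fun x y hxy => ?_⟩, fun h => ?_⟩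
    · have := congSq_of_dvd hpp hp5 _ (c1 h x y hxy)
      push_cast at this
      exact this
    · have := congSq_of_dvd hpp hp5 _ (c2 h x y hxy)
      push_cast at this
      exact this
    · have := congSq_of_dvd hpp hp5 _ (c3 h)
      push_cast at this
      exact this
  · have h7 : p = 7 := by
      have : p < 11 := by omega
      interval_cases p
      · exact absurd hpp (by norm_num)
      · rfl
      · exact absurd hpp (by norm_num)
      · exact absurd hpp (by norm_num)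
      · exact absurd hpp (by norm_num)
    subst h7
    refine ⟨fun h => by omega, fun h => by omega, fun _ => seven⟩

end SC15
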